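import Pool.Agent.PMC.Lab

/-!
# PMC / Comp: compositions of labellings
-/

namespace PMC

open Finset

variable {L : Type*} {d : ℕ}

/-- the composition of labellings along a set `A` of coordinates: in `A` the labelling `r` of the part in
`A`, outside `A` a labelling of the part outside which may depend on the part in `A` -/
def comp (A : Finset (Fin d)) (r : Pat L d) (s : Finset (Fin d) → Pat L d) : Pat L d :=
  fun B i => if i ∈ A then r (B ∩ A) i else s (B ∩ A) (B \ A) i

theorem comp_mem {A : Finset (Fin d)} {r : Pat L d} {s : Finset (Fin d) → Pat L d}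
    {B : Finset (Fin d)} {i : Fin d} (h : i ∈ A) : comp A r s B i = r (B ∩ A) i := if_pos h

theorem comp_not {A : Finset (Fin d)} {r : Pat L d} {s : Finset (Fin d) → Pat L d}
    {B : Finset (Fin d)} {i : Fin d} (h : i ∉ A) : comp A r s B i = s (B ∩ A) (B \ A) i :=
  if_neg h

/-- many flips in the same direction -/
theorem conn_multi (i : Fin d) (b : L) (p : Pat L d) (G : Finset (Finset (Fin d)))
    (hG : ∀ B ∈ G, i ∉ B ∧ ∀ j, j ≠ i → p B j = p (insert i B) j) :
    Conn p (fun C j => if j = i ∧ C.erase i ∈ G then b else p C j) := by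
  classical
  induction G using Finset.induction_on with
  | empty =>
    have h1 : (fun C j => if j = i ∧ C.erase i ∈ (∅ : Finset (Finset (Fin d))) then b else p C j) =
        p := by
      funext C j
      rw [if_neg]
      rintro ⟨-, h⟩
      exact notMem_empty _ h
    rw [h1]
    exact Relation.ReflTransGen.refl
  | insert B G _ ih =>
    have h1 := ih fun C hC => hG C (mem_insert_of_mem hC)
    obtain ⟨hB, htw⟩ := hG B (mem_insert_self B G)
    refine h1.tail ⟨i, B, b, hB, ?_, ?_⟩
    · intro j hj
      beta_reduce
      rw [if_neg fun h => hj h.1, if_neg fun h => hj h.1]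
      exact htw j hj
    · funext C j
      unfold upd
      beta_reduce
      have hC : C.erase i = B ↔ (C = B ∨ C = insert i B) := by
        constructor
        · rintro rfl
          by_cases hi : i ∈ C
          · right
            rw [insert_erase hi]
          · left
            rw [erase_eq_of_notMem hi]
        · rintro (rfl | rfl)
          · exact erase_eq_of_notMem hB
          · exact erase_insert hB
      by_cases hj : j = i
      · by_cases h2 : C = B ∨ C = insert i B
        · rw [if_pos ⟨hj, mem_insert.2 (Or.inl (hC.2 h2))⟩, if_pos ⟨hj, h2⟩]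
        · rw [if_neg (fun h => h2 h.2 : ¬ (j = i ∧ (C = B ∨ C = insert i B)))]
          by_cases h3 : C.erase i ∈ G
          · rw [if_pos ⟨hj, mem_insert_of_mem h3⟩, if_pos ⟨hj, h3⟩]
          · have h4 : ¬ (j = i ∧ C.erase i ∈ insert B G) := by
              rintro ⟨-, h⟩
              rcases mem_insert.1 h with h | h
              · exact h2 (hC.1 h)
              · exact h3 h
            rw [if_neg h4, if_neg fun h => h3 h.2]
      · rw [if_neg fun h => hj h.1, if_neg fun h => hj h.1, if_neg fun h => hj h.1]

/-- the labelling in `A` alone -/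
def rpat (A : Finset (Fin d)) (a : Fin d → L) (r : Pat L d) : Pat L d :=
  fun B i => if i ∈ A then r (B ∩ A) i else a i

theorem conn_rpat (A : Finset (Fin d)) (a : Fin d → L) {r r' : Pat L d} (h : Flip r r') :
    Conn (rpat A a r) (rpat A a r') := by
  classical
  obtain ⟨i, E, b, hi, htw, rfl⟩ := h
  by_cases hc : i ∈ A ∧ E ⊆ A
  · obtain ⟨hiA, hE⟩ := hc
    have hins : ∀ B : Finset (Fin d), B ∩ A = E → insert i B ∩ A = insert i E := by
      rintro B rfl
      rw [insert_inter_of_mem hiA]
    have h1 := conn_multi i b (rpat A a r) (univ.filter fun B => i ∉ B ∧ B ∩ A = E) (by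
      intro B hB
      obtain ⟨-, h2, h3⟩ := mem_filter.1 hB
      refine ⟨h2, fun j hj => ?_⟩
      unfold rpat
      by_cases hjA : j ∈ A
      · rw [if_pos hjA, if_pos hjA, h3, hins B h3, htw j hj]
      · rw [if_neg hjA, if_neg hjA])
    have h2 : (fun C j => if j = i ∧ C.erase i ∈ (univ.filter fun B => i ∉ B ∧ B ∩ A = E) then b
        else rpat A a r C j) = rpat A a (upd r i E b) := by
      funext C j
      have h3 : C.erase i ∈ (univ.filter fun B => i ∉ B ∧ B ∩ A = E) ↔
          (C ∩ A = E ∨ C ∩ A = insert i E) := by
        rw [mem_filter, and_iff_right (mem_univ _), and_iff_right (notMem_erase i C)]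
        constructor
        · intro h
          by_cases hiC : i ∈ C
          · right
            rw [← hins _ h, insert_erase hiC]
          · left
            rwa [erase_eq_of_notMem hiC] at h
        · rintro (h | h)
          · have hiC : i ∉ C := fun h4 => hi (h ▸ mem_inter.2 ⟨h4, hiA⟩)
            rwa [erase_eq_of_notMem hiC]
          · rw [erase_inter, h, erase_insert hi]
      by_cases hj : j = i ∧ (C ∩ A = E ∨ C ∩ A = insert i E)
      · rw [if_pos ⟨hj.1, h3.2 hj.2⟩]
        obtain ⟨rfl, h4⟩ := hj
        unfold rpat
        rw [if_pos hiA, upd_same h4]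
      · rw [if_neg fun h => hj ⟨h.1, h3.1 h.2⟩]
        unfold rpat upd
        rw [if_neg hj]
    rw [h2] at h1
    exact h1
  · have h1 : rpat A a (upd r i E b) = rpat A a r := by
      funext C j
      unfold rpat
      by_cases hj : j ∈ A
      · rw [if_pos hj, if_pos hj]
        unfold upd
        rw [if_neg]
        rintro ⟨rfl, h | h⟩
        · exact hc ⟨hj, h ▸ inter_subset_right⟩
        · refine hc ⟨hj, fun k hk => ?_⟩
          have : k ∈ C ∩ A := h ▸ mem_insert_of_mem hk
          exact (mem_inter.1 this).2
      · rw [if_neg hj, if_neg hj]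
    rw [h1]
    exact Relation.ReflTransGen.refl

/-- the labelling `s` put into the part of `p` over `E` -/
def spat (A E : Finset (Fin d)) (p s : Pat L d) : Pat L d :=
  fun B i => if i ∉ A ∧ B ∩ A = E then s (B \ A) i else p B i

theorem conn_spat (A E : Finset (Fin d)) {p : Pat L d}
    (hp : ∀ B i j, i ∉ A → j ∈ A → p (insert i B) j = p B j) {s s' : Pat L d} (h : Flip s s') :
    Conn (spat A E p s) (spat A E p s') := by
  classical
  obtain ⟨i, F, b, hi, htw, rfl⟩ := h
  by_cases hc : i ∉ A ∧ Disjoint F A ∧ E ⊆ A
  · obtain ⟨hiA, hF, hE⟩ := hc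
    have hiE : i ∉ E := fun h => hiA (hE h)
    have e1 : (F ∪ E) ∩ A = E := by
      rw [union_inter_distrib_right, disjoint_iff_inter_eq_empty.1 hF, empty_union,
        inter_eq_left.2 hE]
    have e2 : (F ∪ E) \ A = F := by
      rw [union_sdiff_distrib, sdiff_eq_empty_iff_subset.2 hE, union_empty,
        sdiff_eq_self_of_disjoint hF]
    have e3 : insert i (F ∪ E) ∩ A = E := by
      rw [insert_inter_of_notMem hiA, e1]
    have e4 : insert i (F ∪ E) \ A = insert i F := by
      rw [insert_sdiff_of_notMem _ hiA, e2]
    have hiB : i ∉ F ∪ E := by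
      rw [mem_union, not_or]
      exact ⟨hi, hiE⟩
    refine Relation.ReflTransGen.single ⟨i, F ∪ E, b, hiB, ?_, ?_⟩
    · intro j hj
      unfold spat
      by_cases hjA : j ∈ A
      · rw [if_neg fun h => h.1 hjA, if_neg fun h => h.1 hjA, hp _ _ _ hiA hjA]
      · rw [if_pos ⟨hjA, e1⟩, if_pos ⟨hjA, e3⟩, e2, e4, htw j hj]
    · funext C j
      have h3 : (C ∩ A = E ∧ (C \ A = F ∨ C \ A = insert i F)) ↔
          (C = F ∪ E ∨ C = insert i (F ∪ E)) := by
        constructor
        · rintro ⟨h1, h2⟩
          have h4 : C = C \ A ∪ C ∩ A := (sdiff_union_inter C A).symm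
          rcases h2 with h2 | h2
          · left
            rw [h1, h2] at h4
            exact h4
          · right
            rw [h1, h2, insert_union] at h4
            exact h4
        · rintro (rfl | rfl)
          · exact ⟨e1, Or.inl e2⟩
          · exact ⟨e3, Or.inr e4⟩
      by_cases hj : j = i ∧ (C = F ∪ E ∨ C = insert i (F ∪ E))
      · obtain ⟨rfl, h4⟩ := hj
        rw [upd_same h4]
        obtain ⟨h5, h6⟩ := h3.2 h4
        unfold spat
        rw [if_pos ⟨hiA, h5⟩, upd_same h6]
      · have h4 : upd (spat A E p s) i (F ∪ E) b C j = spat A E p s C j := by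
          unfold upd
          rw [if_neg hj]
        rw [h4]
        unfold spat
        by_cases h5 : j ∉ A ∧ C ∩ A = E
        · rw [if_pos h5, if_pos h5]
          unfold upd
          rw [if_neg]
          rintro ⟨h6, h7⟩
          exact hj ⟨h6, h3.1 ⟨h5.2, h7⟩⟩
        · rw [if_neg h5, if_neg h5]
  · have h1 : spat A E p (upd s i F b) = spat A E p s := by
      funext C j
      unfold spat
      by_cases h5 : j ∉ A ∧ C ∩ A = E
      · rw [if_pos h5, if_pos h5]
        unfold upd
        rw [if_neg]
        rintro ⟨rfl, h6⟩
        refine hc ⟨h5.1, ?_, h5.2 ▸ inter_subset_right⟩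
        have h7 : F ⊆ C \ A := by
          rcases h6 with h6 | h6
          · rw [h6]
          · rw [h6]
            exact subset_insert _ _
        exact disjoint_of_subset_left h7 sdiff_disjoint
      · rw [if_neg h5, if_neg h5]
    rw [h1]
    exact Relation.ReflTransGen.refl

/-- labellings which are joined with a constant one -/
def TT (a : Fin d → L) (p : Pat L d) : Prop := Kel p ∧ Conn p (fun _ i => a i)

theorem Kel.comp {A : Finset (Fin d)} {r : Pat L d} {s : Finset (Fin d) → Pat L d}
    (hr : Kel r) (hs : ∀ E, Kel (s E)) : Kel (comp A r s) := by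
  intro B C hne
  by_cases h : B ∩ A = C ∩ A
  · have h1 : B \ A ≠ C \ A := by
      intro h2
      apply hne
      rw [← sdiff_union_inter B A, ← sdiff_union_inter C A, h, h2]
    obtain ⟨i, h2, h3⟩ := hs (B ∩ A) _ _ h1
    have hiA : i ∉ A := by
      intro hiA
      rw [mem_sdiff, mem_sdiff] at h2
      tauto
    refine ⟨i, ?_, ?_⟩
    · rw [mem_sdiff, mem_sdiff] at h2
      tauto
    · rw [comp_not hiA, comp_not hiA, ← h, h3]
  · obtain ⟨i, h2, h3⟩ := hr _ _ h
    have hiA : i ∈ A := by
      by_contra hiA
      rw [mem_inter, mem_inter] at h2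
      tauto
    refine ⟨i, ?_, ?_⟩
    · rw [mem_inter, mem_inter] at h2
      tauto
    · rw [comp_mem hiA, comp_mem hiA, h3]

theorem TT.comp {A : Finset (Fin d)} {a : Fin d → L} {r : Pat L d}
    {s : Finset (Fin d) → Pat L d} (hr : TT a r) (hs : ∀ E, TT a (s E)) :
    TT a (comp A r s) := by
  classical
  refine ⟨hr.1.comp fun E => (hs E).1, ?_⟩
  -- the parts over the subsets of `A` one after the other
  have step1 : ∀ G : Finset (Finset (Fin d)), Conn (PMC.comp A r s)
      (fun B i => if i ∈ A then r (B ∩ A) i else if B ∩ A ∈ G then a i else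
        s (B ∩ A) (B \ A) i) := by
    intro G
    induction G using Finset.induction_on with
    | empty =>
      have h1 : (fun B i => if i ∈ A then r (B ∩ A) i else
          if B ∩ A ∈ (∅ : Finset (Finset (Fin d))) then a i else
            s (B ∩ A) (B \ A) i) = PMC.comp A r s := by
        funext B i
        rw [if_neg (notMem_empty _)]
        rfl
      rw [h1]
      exact Relation.ReflTransGen.refl
    | insert E G hEG ih =>
      refine Relation.ReflTransGen.trans ih ?_
      set p : Pat L d := fun B i => if i ∈ A then r (B ∩ A) i else if B ∩ A ∈ G then a i else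
        s (B ∩ A) (B \ A) i with hpdef
      have hp : ∀ B i j, i ∉ A → j ∈ A → p (insert i B) j = p B j := by
        intro B i j hi hj
        rw [hpdef]
        beta_reduce
        rw [if_pos hj, if_pos hj, insert_inter_of_notMem hi]
      have h1 : ∀ t : Pat L d, Conn (s E) t → Conn (spat A E p (s E)) (spat A E p t) := by
        intro t ht
        induction ht with
        | refl => exact Relation.ReflTransGen.refl
        | tail _ h ih => exact Relation.ReflTransGen.trans ih (conn_spat A E hp h)
      have h2 := h1 _ (hs E).2
      have h3 : spat A E p (s E) = p := by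
        funext B i
        unfold spat
        by_cases h : i ∉ A ∧ B ∩ A = E
        · rw [if_pos h, hpdef]
          beta_reduce
          rw [if_neg h.1, h.2, if_neg hEG]
        · rw [if_neg h]
      have h4 : spat A E p (fun _ i => a i) = fun B i => if i ∈ A then r (B ∩ A) i else
          if B ∩ A ∈ insert E G then a i else s (B ∩ A) (B \ A) i := by
        funext B i
        unfold spat
        rw [hpdef]
        beta_reduce
        by_cases hi : i ∈ A
        · rw [if_neg fun h => h.1 hi, if_pos hi, if_pos hi]
        · rw [if_neg hi, if_neg hi]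
          by_cases hE : B ∩ A = E
          · rw [if_pos ⟨hi, hE⟩, if_pos (mem_insert.2 (Or.inl hE))]
          · rw [if_neg fun h => hE h.2]
            by_cases hG : B ∩ A ∈ G
            · rw [if_pos hG, if_pos (mem_insert_of_mem hG)]
            · rw [if_neg hG, if_neg]
              rw [mem_insert, not_or]
              exact ⟨hE, hG⟩
      rw [h3, h4] at h2
      exact h2
  have h1 := step1 univ
  have h2 : (fun B i => if i ∈ A then r (B ∩ A) i else
      if B ∩ A ∈ (univ : Finset (Finset (Fin d))) then a i else s (B ∩ A) (B \ A) i) =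
        rpat A a r := by
    funext B i
    rw [if_pos (mem_univ _)]
    rfl
  rw [h2] at h1
  have step2 : ∀ t : Pat L d, Conn r t → Conn (rpat A a r) (rpat A a t) := by
    intro t ht
    induction ht with
    | refl => exact Relation.ReflTransGen.refl
    | tail _ h ih => exact Relation.ReflTransGen.trans ih (conn_rpat A a h)
  have h3 := step2 _ hr.2
  have h4 : rpat A a (fun _ i => a i : Pat L d) = fun _ i => a i := by
    funext B i
    unfold rpat
    rw [ite_self]
  rw [h4] at h3
  exact Relation.ReflTransGen.trans h1 h3

end PMC
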