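import Pool.Agent.PMC.Lcp

/-!
# PMC / Gen: generic right hand sides, and the induction over the coordinates
-/

namespace PMC

open Finset Filter Topology

variable {d : ℕ}

/-- near a vector there is a vector outside finitely many hyperplanes -/
theorem exists_near {E : Type*} [AddCommGroup E] [Module ℝ E] {I J : Type*} [Finite I] [Finite J]
    (f : I → Module.Dual ℝ E) (hf : ∀ i, ∃ x, f i x ≠ 0) (g : J → Module.Dual ℝ E) (p : E)
    (hg : ∀ j, 0 < g j p) : ∃ q, (∀ i, f i q ≠ 0) ∧ ∀ j, 0 < g j q := by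
  obtain ⟨u, hu⟩ := Module.Dual.exists_forall_ne_zero_of_forall_exists f hf
  have h1 : ∀ i, ∀ᶠ e : ℝ in 𝓝[>] 0, f i (p + e • u) ≠ 0 := by
    intro i
    by_cases h0 : f i p = 0
    · filter_upwards [self_mem_nhdsWithin] with e he
      rw [map_add, h0, zero_add, map_smul, smul_eq_mul]
      exact mul_ne_zero (ne_of_gt he) (hu i)
    · have hc : ContinuousAt (fun e : ℝ => f i p + e * f i u) 0 := by fun_prop
      have h2 : ∀ᶠ e : ℝ in 𝓝 0, f i p + e * f i u ≠ 0 := by
        apply hc.eventually_ne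
        rwa [zero_mul, add_zero]
      filter_upwards [nhdsWithin_le_nhds h2] with e he
      rwa [map_add, map_smul, smul_eq_mul]
  have h2 : ∀ j, ∀ᶠ e : ℝ in 𝓝[>] 0, 0 < g j (p + e • u) := by
    intro j
    have hc : ContinuousAt (fun e : ℝ => g j p + e * g j u) 0 := by fun_prop
    have h2 : ∀ᶠ e : ℝ in 𝓝 0, 0 < g j p + e * g j u := by
      apply hc.eventually_const_lt
      beta_reduce
      rw [zero_mul, add_zero]
      exact hg j
    filter_upwards [nhdsWithin_le_nhds h2] with e he
    rwa [map_add, map_smul, smul_eq_mul]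
  obtain ⟨e, he1, he2⟩ := ((eventually_all.2 h1).and (eventually_all.2 h2)).exists
  exact ⟨p + e • u, he1, he2⟩

variable {M : Matrix (Fin d) (Fin d) ℝ} (hM : IsPM M)

/-- the coordinate functionals -/
noncomputable def cf (B : Finset (Fin d)) (i : Fin d) : Module.Dual ℝ (Fin d → ℝ) :=
  (LinearMap.proj i).comp (XX hM B).toLinearMap

theorem cf_apply (B : Finset (Fin d)) (i : Fin d) (q : Fin d → ℝ) :
    cf hM B i q = XX hM B q i := rfl

/-- the next right hand side: combed in the direction `j` and generic with respect to `p` -/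
theorem exists_next (j : Fin d) (p : Fin d → ℝ) : ∃ q : Fin d → ℝ,
    (∀ B, (j ∈ B ↔ 0 < XX hM B q j)) ∧ (∀ B i, XX hM B q i ≠ 0) ∧
      ∀ B i k, i ≠ k → XX hM B p i ≠ 0 →
        XX hM B p i * XX hM B q k ≠ XX hM B p k * XX hM B q i := by
  classical
  let I1 := Finset (Fin d) × Fin d
  let I2 := {t : Finset (Fin d) × Fin d × Fin d // t.2.1 ≠ t.2.2 ∧ XX hM t.1 p t.2.1 ≠ 0}
  let f : I1 ⊕ I2 → Module.Dual ℝ (Fin d → ℝ) := Sum.elim (fun t => cf hM t.1 t.2)
    (fun t => XX hM t.1.1 p t.1.2.1 • cf hM t.1.1 t.1.2.2 -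
      XX hM t.1.1 p t.1.2.2 • cf hM t.1.1 t.1.2.1)
  let g : Finset (Fin d) → Module.Dual ℝ (Fin d → ℝ) := fun B =>
    (if j ∈ B then (1 : ℝ) else -1) • cf hM B j
  have hf : ∀ t, ∃ x, f t x ≠ 0 := by
    rintro (⟨B, i⟩ | ⟨⟨B, i, k⟩, h1, h2⟩)
    · refine ⟨NN M B (Pi.single i 1), ?_⟩
      change XX hM B (NN M B (Pi.single i 1)) i ≠ 0
      rw [XX_NN, Pi.single_eq_same]
      exact one_ne_zero
    · refine ⟨NN M B (Pi.single k 1), ?_⟩
      change XX hM B p i * XX hM B (NN M B (Pi.single k 1)) k -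
        XX hM B p k * XX hM B (NN M B (Pi.single k 1)) i ≠ 0
      dsimp only at h1 h2
      rw [XX_NN, Pi.single_eq_same, Pi.single_eq_of_ne h1, mul_one, mul_zero, sub_zero]
      exact h2
  have hg : ∀ B, 0 < g B (-Pi.single j 1) := by
    intro B
    change 0 < (if j ∈ B then (1 : ℝ) else -1) * XX hM B (-Pi.single j 1) j
    by_cases hj : j ∈ B
    · rw [if_pos hj, one_mul]
      exact (XX_neg_single hM j B).1 hj
    · rw [if_neg hj]
      have := (XX_neg_single hM j B).2 hj
      linarith
  obtain ⟨q, hq1, hq2⟩ := exists_near f hf g _ hg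
  refine ⟨q, fun B => ?_, fun B i => hq1 (Sum.inl (B, i)), fun B i k hik h0 => ?_⟩
  · have h1 : 0 < (if j ∈ B then (1 : ℝ) else -1) * XX hM B q j := hq2 B
    by_cases hj : j ∈ B
    · rw [if_pos hj, one_mul] at h1
      exact ⟨fun _ => h1, fun _ => hj⟩
    · rw [if_neg hj] at h1
      exact ⟨fun h => absurd h hj, fun h => by linarith⟩
  · have h1 : XX hM B p i * XX hM B q k - XX hM B p k * XX hM B q i ≠ 0 :=
      hq1 (Sum.inr ⟨(B, i, k), hik, h0⟩)
    exact fun h => h1 (sub_eq_zero.2 h)

theorem inter_insert_of_notMem' {D B : Finset (Fin d)} {i : Fin d} (h : i ∉ D) :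
    insert i B ∩ D = B ∩ D := by
  rw [insert_inter_of_notMem h]

/-- the induction over the coordinates -/
theorem conn_flag : ∀ (n : ℕ) (D : Finset (Fin d)) (Q : Finset (Fin d) → Fin d → ℝ),
    (univ \ D).card = n → (∀ B C, B ∩ D = C ∩ D → Q B = Q C) →
    (∀ B i, i ∉ D → XX hM B (Q B) i ≠ 0) →
    Conn (pt D fun B => XX hM B (Q B)) (fun _ _ => true) := by
  intro n
  induction n with
  | zero =>
    intro D Q hn _ _
    have hD : ∀ i, i ∈ D := by
      intro i
      by_contra hi
      have h1 : i ∈ univ \ D := mem_sdiff.2 ⟨mem_univ i, hi⟩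
      rw [card_eq_zero.1 hn] at h1
      exact notMem_empty i h1
    have h1 : (pt D fun B => XX hM B (Q B)) = fun _ _ => true := by
      funext B i
      exact pt_mem (hD i)
    rw [h1]
    exact Relation.ReflTransGen.refl
  | succ n ih =>
    intro D Q hn hQ hnz
    have hne : (univ \ D).Nonempty := by
      rw [← card_pos, hn]
      exact Nat.succ_pos n
    obtain ⟨j, hj⟩ := hne
    have hjD : j ∉ D := (mem_sdiff.1 hj).2
    choose G hG1 hG2 hG3 using exists_next hM j
    have hQi : ∀ B i, i ∉ D → Q (insert i B) = Q B := fun B i hi =>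
      hQ _ _ (inter_insert_of_notMem' hi)
    have hev : Ev D (fun B => XX hM B (Q B)) (fun B => XX hM B (G (Q B))) := by
      refine ⟨hnz, fun B i _ => hG2 _ B i, ?_, ?_, ?_, ?_⟩
      · intro B i hi hB
        have h1 := XX_edge hM hB (Q B)
        have h2 := hnz B i hi
        rw [hQi B i hi]
        rcases h1 with h1 | ⟨h1, -⟩
        · exact h1
        · exact absurd h1 h2
      · intro B i hi hB
        have h1 := XX_edge hM hB (G (Q B))
        rw [hQi B i hi]
        rcases h1 with h1 | ⟨h1, -⟩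
        · exact h1
        · exact absurd h1 (hG2 _ B i)
      · intro B i t hi hB ht
        beta_reduce at ht ⊢
        rw [hQi B i hi]
        have e : ∀ C k, (1 - t) * XX hM C (Q B) k + t * XX hM C (G (Q B)) k =
            XX hM C ((1 - t) • Q B + t • G (Q B)) k := by
          intro C k
          rw [map_add, map_smul, map_smul]
          rfl
        simp only [e] at ht ⊢
        rcases XX_edge hM hB ((1 - t) • Q B + t • G (Q B)) with h1 | ⟨h1, h2⟩
        · rw [ht, zero_mul] at h1
          exact absurd h1 (lt_irrefl 0)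
        · rw [← h2]
          exact ⟨ht, fun _ _ => rfl⟩
      · intro B i k hi _ hik
        exact hG3 (Q B) B i k hik (hnz B i hi)
    refine Relation.ReflTransGen.trans hev.conn ?_
    have h1 : (pt D fun B => XX hM B (G (Q B))) = pt (insert j D) fun B => XX hM B (G (Q B)) := by
      funext B i
      by_cases hi : i ∈ insert j D
      · rw [pt_mem hi]
        rcases mem_insert.1 hi with rfl | hi
        · rw [pt_not hjD]
          exact hG1 (Q B) B
        · exact pt_mem hi
      · have hi' : i ∉ D := fun h => hi (mem_insert_of_mem h)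
        rw [Bool.eq_iff_iff, pt_not hi, pt_not hi']
    rw [h1]
    refine ih (insert j D) (fun B => G (Q B)) ?_ ?_ (fun B i _ => hG2 _ B i)
    · have h2 : univ \ insert j D = (univ \ D).erase j := by
        ext f
        rw [Finset.mem_sdiff, Finset.mem_erase, Finset.mem_sdiff, Finset.mem_insert, not_or]
        tauto
      rw [h2, card_erase_of_mem hj, hn]
      rfl
    · intro B C h
      have : Q B = Q C := by
        apply hQ
        ext i
        have h3 := Finset.ext_iff.1 h i
        simp only [mem_inter, mem_insert] at h3 ⊢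
        tauto
      rw [this]

/-- the labelling of a nondegenerate problem is joined with the constant one -/
theorem conn_lcp (q : Fin d → ℝ) (hq : ∀ B i, XX hM B q i ≠ 0) :
    Conn (pt ∅ fun B => XX hM B q) (fun _ _ => true) :=
  conn_flag hM _ ∅ (fun _ => q) rfl (fun _ _ _ => rfl) fun B i _ => hq B i

theorem kel_lcp (q : Fin d → ℝ) (hq : ∀ B i, XX hM B q i ≠ 0) :
    Kel (pt ∅ fun B => XX hM B q) := by
  intro B C hne
  rcases XX_cmp hM B C q with ⟨h1, h2⟩ | ⟨i, h1, h2⟩
  · exfalso
    apply hne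
    ext i
    by_cases hB : i ∈ B
    · by_cases hC : i ∈ C
      · exact ⟨fun _ => hC, fun _ => hB⟩
      · have := congrFun h1 i
        rw [zz_mem hB, zz_not hC] at this
        exact absurd this (hq B i)
    · by_cases hC : i ∈ C
      · have := congrFun h1 i
        rw [zz_not hB, zz_mem hC] at this
        exact absurd this.symm (hq C i)
      · exact ⟨fun h => absurd h hB, fun h => absurd h hC⟩
  · refine ⟨i, h1, ?_⟩
    rw [Bool.eq_iff_iff, pt_not (notMem_empty i), pt_not (notMem_empty i)]
    have h3 : 0 < XX hM B q i ↔ ¬ 0 < XX hM C q i := by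
      rcases mul_neg_iff.1 h2 with ⟨h4, h5⟩ | ⟨h4, h5⟩
      · exact ⟨fun _ => not_lt.2 h5.le, fun _ => h4⟩
      · exact ⟨fun h => absurd h (not_lt.2 h4.le), fun h => absurd h5 h⟩
    rw [h3]
    tauto

end PMC
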