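import Pool.Agent.CTL.Code

/-!
# PMC / Lab: labellings and their codes

A labelling chooses for every subset `B` of the coordinates and every coordinate `i` a label. If the labels
are letters, the word of `B` has the label itself at the places in `B` and its complement at the other
places.
-/

namespace PMC

open Finset CTL

/-- labellings -/
abbrev Pat (L : Type*) (d : ℕ) : Type _ := Finset (Fin d) → Fin d → L

variable {L : Type*} {d : ℕ}

/-- the condition of Keller for a labelling -/
def Kel (p : Pat L d) : Prop :=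
  ∀ B C : Finset (Fin d), B ≠ C → ∃ i, (i ∈ B ↔ i ∉ C) ∧ p B i = p C i

/-- the labelling changed at the edge `B`, `insert i B` -/
def upd (p : Pat L d) (i : Fin d) (B : Finset (Fin d)) (b : L) : Pat L d :=
  fun C j => if j = i ∧ (C = B ∨ C = insert i B) then b else p C j

/-- twin flips of labellings -/
def Flip (p p' : Pat L d) : Prop :=
  ∃ (i : Fin d) (B : Finset (Fin d)) (b : L), i ∉ B ∧
    (∀ j, j ≠ i → p B j = p (insert i B) j) ∧ p' = upd p i B b

/-- sequences of flips -/
def Conn : Pat L d → Pat L d → Prop := Relation.ReflTransGen Flip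

theorem Kel.edge {p : Pat L d} (hp : Kel p) {i : Fin d} {B : Finset (Fin d)} (hi : i ∉ B) :
    p B i = p (insert i B) i := by
  have hne : B ≠ insert i B := by
    intro h
    exact hi (h ▸ mem_insert_self i B)
  obtain ⟨j, hj, h⟩ := hp B (insert i B) hne
  have : j = i := by
    by_contra hji
    rw [mem_insert, or_iff_right hji] at hj
    tauto
  rw [this] at h
  exact h

theorem upd_same {p : Pat L d} {i : Fin d} {B C : Finset (Fin d)} {b : L}
    (hC : C = B ∨ C = insert i B) : upd p i B b C i = b := by
  unfold upd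
  rw [if_pos ⟨rfl, hC⟩]

theorem upd_ne {p : Pat L d} {i j : Fin d} {B C : Finset (Fin d)} {b : L}
    (h : j ≠ i) : upd p i B b C j = p C j := by
  unfold upd
  rw [if_neg fun h' => h h'.1]

theorem upd_off {p : Pat L d} {i j : Fin d} {B C : Finset (Fin d)} {b : L}
    (h1 : C ≠ B) (h2 : C ≠ insert i B) : upd p i B b C j = p C j := by
  unfold upd
  rw [if_neg]
  rintro ⟨-, h | h⟩
  · exact h1 h
  · exact h2 h

theorem Kel.flip {p p' : Pat L d} (hp : Kel p) (h : Flip p p') : Kel p' := by
  obtain ⟨i, B, b, hi, htw, rfl⟩ := h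
  have hedge := hp.edge hi
  -- the comparison of an end of the edge with a third set
  have key : ∀ E C : Finset (Fin d), (E = B ∨ E = insert i B) → C ≠ B → C ≠ insert i B →
      ∃ j, j ≠ i ∧ (j ∈ E ↔ j ∉ C) ∧ p E j = p C j := by
    intro E C hE h1 h2
    -- the end of the edge on the same side as `C`
    have h3 : ∃ F, (F = B ∨ F = insert i B) ∧ (i ∈ F ↔ i ∈ C) := by
      by_cases hC : i ∈ C
      · exact ⟨insert i B, Or.inr rfl, by simp [hC]⟩
      · exact ⟨B, Or.inl rfl, by simp [hC, hi]⟩
    obtain ⟨F, hF, hFC⟩ := h3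
    have hFC' : F ≠ C := by
      rcases hF with rfl | rfl
      · exact fun h => h1 h.symm
      · exact fun h => h2 h.symm
    obtain ⟨j, hj, h⟩ := hp F C hFC'
    have hji : j ≠ i := by
      rintro rfl
      tauto
    have hm : ∀ G, (G = B ∨ G = insert i B) → (j ∈ G ↔ j ∈ B) := by
      rintro G (rfl | rfl)
      · rfl
      · rw [mem_insert, or_iff_right hji]
    have hv : ∀ G, (G = B ∨ G = insert i B) → p G j = p B j := by
      rintro G (rfl | rfl)
      · rfl
      · exact (htw j hji).symm
    refine ⟨j, hji, ?_, ?_⟩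
    · rw [hm E hE, ← hm F hF]
      exact hj
    · rw [hv E hE, ← hv F hF]
      exact h
  intro C C' hne
  by_cases hC : C = B ∨ C = insert i B
  · by_cases hC' : C' = B ∨ C' = insert i B
    · refine ⟨i, ?_, by rw [upd_same hC, upd_same hC']⟩
      rcases hC with rfl | rfl <;> rcases hC' with rfl | rfl
      · exact absurd rfl hne
      · simp [hi]
      · simp [hi]
      · exact absurd rfl hne
    · push Not at hC'
      obtain ⟨j, hji, hm, h⟩ := key C C' hC hC'.1 hC'.2
      exact ⟨j, hm, by rw [upd_ne hji, upd_ne hji, h]⟩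
  · by_cases hC' : C' = B ∨ C' = insert i B
    · push Not at hC
      obtain ⟨j, hji, hm, h⟩ := key C' C hC' hC.1 hC.2
      refine ⟨j, ?_, by rw [upd_ne hji, upd_ne hji, h]⟩
      tauto
    · push Not at hC hC'
      obtain ⟨j, hm, h⟩ := hp C C' hne
      exact ⟨j, hm, by rw [upd_off hC.1 hC.2, upd_off hC'.1 hC'.2, h]⟩

theorem Flip.symm {p p' : Pat L d} (hp : Kel p) (h : Flip p p') : Flip p' p := by
  obtain ⟨i, B, b, hi, htw, rfl⟩ := h
  refine ⟨i, B, p B i, hi, fun j hj => by rw [upd_ne hj, upd_ne hj, htw j hj], ?_⟩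
  funext C j
  by_cases h : j = i ∧ (C = B ∨ C = insert i B)
  · obtain ⟨rfl, hC⟩ := h
    rw [upd_same hC]
    rcases hC with rfl | rfl
    · rfl
    · exact (hp.edge hi).symm
  · unfold upd
    rw [if_neg h, if_neg h]

theorem Conn.kel {p p' : Pat L d} (hp : Kel p) (h : Conn p p') : Kel p' := by
  induction h with
  | refl => exact hp
  | tail _ h ih => exact ih.flip h

theorem Conn.symm {p p' : Pat L d} (hp : Kel p) (h : Conn p p') : Conn p' p := by
  induction h with
  | refl => exact Relation.ReflTransGen.refl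
  | tail h1 h ih => exact Relation.ReflTransGen.head (h.symm (Conn.kel hp h1)) ih

theorem Flip.map {L' : Type*} (f : Fin d → L → L') {p p' : Pat L d} (h : Flip p p') :
    Flip (fun B i => f i (p B i)) (fun B i => f i (p' B i)) := by
  obtain ⟨i, B, b, hi, htw, rfl⟩ := h
  refine ⟨i, B, f i b, hi, fun j hj => congrArg (f j) (htw j hj), ?_⟩
  funext C j
  by_cases h : j = i ∧ (C = B ∨ C = insert i B)
  · obtain ⟨rfl, hC⟩ := h
    rw [upd_same hC]
    unfold upd
    rw [if_pos ⟨rfl, hC⟩]
  · unfold upd
    rw [if_neg h, if_neg h]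

theorem Conn.map {L' : Type*} (f : Fin d → L → L') {p p' : Pat L d} (h : Conn p p') :
    Conn (fun B i => f i (p B i)) (fun B i => f i (p' B i)) := by
  induction h with
  | refl => exact Relation.ReflTransGen.refl
  | tail _ h ih => exact ih.tail (h.map f)

theorem Kel.map {L' : Type*} (f : Fin d → L → L') {p : Pat L d} (h : Kel p) :
    Kel (fun B i => f i (p B i)) := by
  intro B C hne
  obtain ⟨i, h1, h2⟩ := h B C hne
  exact ⟨i, h1, congrArg (f i) h2⟩

theorem Kel.const (a : Fin d → L) : Kel (fun _ i => a i : Pat L d) := by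
  intro B C hne
  by_contra h
  push Not at h
  apply hne
  ext i
  by_contra hi
  exact h i (by tauto) rfl

section word

variable {S : Type*} {co : S → S}

/-- the word of a set of coordinates -/
def wd (co : S → S) (p : Pat S d) (B : Finset (Fin d)) : Fin d → S :=
  fun i => if i ∈ B then p B i else co (p B i)

/-- the code of a labelling -/
def cod (co : S → S) (p : Pat S d) : Set (Fin d → S) := Set.range (wd co p)

theorem wd_dich (hco : ∀ s, co (co s) = s) {p : Pat S d} (hp : Kel p)
    {B C : Finset (Fin d)} (h : B ≠ C) : Dich co (wd co p B) (wd co p C) := by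
  obtain ⟨i, hm, hv⟩ := hp B C h
  refine ⟨i, ?_⟩
  unfold wd
  by_cases hB : i ∈ B
  · rw [if_pos hB, if_neg (hm.1 hB), hco, hv]
  · have hC : i ∈ C := by
      by_contra hC
      exact hB (hm.2 hC)
    rw [if_neg hB, if_pos hC, hv]

theorem wd_inj (hco : ∀ s, co (co s) = s) (hne : ∀ s, co s ≠ s)
    {p : Pat S d} (hp : Kel p) : Function.Injective (wd co p) := by
  intro B C h
  by_contra hBC
  obtain ⟨i, hi⟩ := wd_dich hco hp hBC
  rw [h] at hi
  exact hne _ hi.symm

theorem isTiling_cod (hco : ∀ s, co (co s) = s) (hne : ∀ s, co s ≠ s) 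
    {p : Pat S d} (hp : Kel p) : IsTiling co (cod co p) := by
  constructor
  · unfold cod
    rw [← Set.image_univ, Set.ncard_image_of_injective _ (wd_inj hco hne hp), Set.ncard_univ,
      Nat.card_eq_fintype_card, Fintype.card_finset, Fintype.card_fin]
  · rintro _ ⟨B, rfl⟩ _ ⟨C, rfl⟩ h
    exact wd_dich hco hp fun e => h (by rw [e])

/-- a flip is a gluing-and-cutting operation -/
theorem step_of_flip (hco : ∀ s, co (co s) = s) (hne : ∀ s, co s ≠ s) 
    {p p' : Pat S d} (hp : Kel p) (h : Flip p p') : Step co (cod co p) (cod co p') := by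
  obtain ⟨i, B, b, hi, htw, rfl⟩ := h
  have hedge := hp.edge hi
  have hiB : i ∈ insert i B := mem_insert_self i B
  have hm : ∀ j, j ≠ i → (j ∈ insert i B ↔ j ∈ B) := fun j hj => by
    rw [mem_insert, or_iff_right hj]
  have h1 : wd co p (insert i B) i = co (wd co p B i) := by
    unfold wd
    rw [if_pos hiB, if_neg hi, hco, hedge]
  have h2 : ∀ j, j ≠ i → wd co p (insert i B) j = wd co p B j := by
    intro j hj
    unfold wd
    rw [← htw j hj]
    by_cases hjB : j ∈ B
    · rw [if_pos hjB, if_pos ((hm j hj).2 hjB)]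
    · rw [if_neg hjB, if_neg fun h => hjB ((hm j hj).1 h)]
  have w1 : wd co (upd p i B b) (insert i B) =
      Function.update (wd co p (insert i B)) i b := by
    funext j
    by_cases hj : j = i
    · subst hj
      rw [Function.update_self]
      unfold wd
      rw [if_pos hiB, upd_same (Or.inr rfl)]
    · rw [Function.update_of_ne hj]
      unfold wd
      rw [upd_ne hj]
  have w2 : wd co (upd p i B b) B =
      Function.update (wd co p (insert i B)) i (co b) := by
    funext j
    by_cases hj : j = i
    · subst hj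
      rw [Function.update_self]
      unfold wd
      rw [if_neg hi, upd_same (Or.inl rfl)]
    · rw [Function.update_of_ne hj, h2 j hj]
      unfold wd
      rw [upd_ne hj]
  have w3 : ∀ C, C ≠ B → C ≠ insert i B → wd co (upd p i B b) C = wd co p C := by
    intro C hC1 hC2
    funext j
    unfold wd
    rw [upd_off hC1 hC2]
  refine ⟨wd co p (insert i B), ⟨_, rfl⟩, wd co p B, ⟨_, rfl⟩, i, b, h1, h2, ?_⟩
  ext u
  constructor
  · rintro ⟨C, rfl⟩
    by_cases hC1 : C = insert i B
    · right
      left
      rw [hC1]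
      exact w1
    · by_cases hC2 : C = B
      · right
        right
        rw [hC2]
        exact w2
      · left
        rw [w3 C hC2 hC1]
        refine ⟨⟨C, rfl⟩, ?_⟩
        rintro (h | h)
        · exact hC1 (wd_inj hco hne hp h)
        · exact hC2 (wd_inj hco hne hp h)
  · rintro (⟨⟨C, rfl⟩, hu⟩ | hu | hu)
    · have hC1 : C ≠ insert i B := by
        rintro rfl
        exact hu (Or.inl rfl)
      have hC2 : C ≠ B := by
        rintro rfl
        exact hu (Or.inr rfl)
      exact ⟨C, w3 C hC2 hC1⟩
    · exact ⟨insert i B, by rw [w1, hu]⟩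
    · exact ⟨B, by rw [w2, hu]⟩

theorem equiv_of_conn (hco : ∀ s, co (co s) = s) (hne : ∀ s, co s ≠ s) 
    {p p' : Pat S d} (hp : Kel p) (h : Conn p p') :
    StronglyEquivalent co (cod co p) (cod co p') := by
  induction h with
  | refl => exact Relation.ReflTransGen.refl
  | tail h1 h ih => exact ih.tail (step_of_flip hco hne (Conn.kel hp h1) h)

end word

end PMC
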