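import Pool.Agent.PMC.Stage

/-!
# PMC / Lcp: the basic solutions of a linear complementarity problem with a P-matrix
-/

namespace PMC

open Finset

variable {d : ℕ}

/-- P-matrices: no nonzero vector has its sign reversed -/
def IsPM (M : Matrix (Fin d) (Fin d) ℝ) : Prop :=
  ∀ x : Fin d → ℝ, x ≠ 0 → ∃ i, 0 < x i * (M.mulVec x) i

/-- the part in `B` -/
noncomputable def zz (B : Finset (Fin d)) : (Fin d → ℝ) →ₗ[ℝ] (Fin d → ℝ) where
  toFun x := fun i => if i ∈ B then x i else 0
  map_add' x y := by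
    funext i
    by_cases h : i ∈ B <;> simp [h]
  map_smul' c x := by
    funext i
    by_cases h : i ∈ B <;> simp [h]

theorem zz_mem {B : Finset (Fin d)} {i : Fin d} (h : i ∈ B) (x : Fin d → ℝ) : zz B x i = x i :=
  if_pos h

theorem zz_not {B : Finset (Fin d)} {i : Fin d} (h : i ∉ B) (x : Fin d → ℝ) : zz B x i = 0 :=
  if_neg h

/-- the part outside `B` -/
noncomputable def ww (B : Finset (Fin d)) : (Fin d → ℝ) →ₗ[ℝ] (Fin d → ℝ) :=
  LinearMap.id - zz B

theorem ww_mem {B : Finset (Fin d)} {i : Fin d} (h : i ∈ B) (x : Fin d → ℝ) : ww B x i = 0 := by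
  change x i - zz B x i = 0
  rw [zz_mem h, sub_self]

theorem ww_not {B : Finset (Fin d)} {i : Fin d} (h : i ∉ B) (x : Fin d → ℝ) : ww B x i = x i := by
  change x i - zz B x i = x i
  rw [zz_not h, sub_zero]

/-- the map `x ↦ w - M z` -/
noncomputable def NN (M : Matrix (Fin d) (Fin d) ℝ) (B : Finset (Fin d)) :
    (Fin d → ℝ) →ₗ[ℝ] (Fin d → ℝ) :=
  ww B - M.mulVecLin.comp (zz B)

theorem NN_apply (M : Matrix (Fin d) (Fin d) ℝ) (B : Finset (Fin d)) (x : Fin d → ℝ) :
    NN M B x = ww B x - M.mulVec (zz B x) := rfl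

/-- two solutions for the same right hand side -/
theorem IsPM.cmp {M : Matrix (Fin d) (Fin d) ℝ} (hM : IsPM M) {B C : Finset (Fin d)}
    {x y : Fin d → ℝ} (h : NN M B x = NN M C y) :
    (zz B x = zz C y ∧ ww B x = ww C y) ∨ ∃ i, (i ∈ B ↔ i ∉ C) ∧ x i * y i < 0 := by
  rw [NN_apply, NN_apply] at h
  have h1 : M.mulVec (zz B x - zz C y) = ww B x - ww C y := by
    rw [Matrix.mulVec_sub]
    linear_combination (exp := 1) -h
  by_cases hz : zz B x - zz C y = 0
  · left
    rw [hz, Matrix.mulVec_zero] at h1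
    exact ⟨sub_eq_zero.1 hz, (sub_eq_zero.1 h1.symm)⟩
  · right
    obtain ⟨i, hi⟩ := hM _ hz
    rw [h1, Pi.sub_apply, Pi.sub_apply] at hi
    refine ⟨i, ?_⟩
    by_cases hB : i ∈ B
    · by_cases hC : i ∈ C
      · rw [ww_mem hB, ww_mem hC] at hi
        simp at hi
      · rw [ww_mem hB, zz_mem hB, zz_not hC, ww_not hC] at hi
        refine ⟨⟨fun _ => hC, fun _ => hB⟩, ?_⟩
        nlinarith
    · by_cases hC : i ∈ C
      · rw [ww_not hB, zz_not hB, zz_mem hC, ww_mem hC] at hi
        refine ⟨⟨fun h => absurd h hB, fun h => absurd hC h⟩, ?_⟩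
        nlinarith
      · rw [zz_not hB, zz_not hC] at hi
        simp at hi

theorem IsPM.inj {M : Matrix (Fin d) (Fin d) ℝ} (hM : IsPM M) (B : Finset (Fin d)) :
    Function.Injective (NN M B) := by
  intro x y h
  rcases hM.cmp h with ⟨h1, h2⟩ | ⟨i, h1, -⟩
  · funext i
    by_cases hB : i ∈ B
    · have := congrFun h1 i
      rwa [zz_mem hB, zz_mem hB] at this
    · have := congrFun h2 i
      rwa [ww_not hB, ww_not hB] at this
  · tauto

/-- the basic solution: `z` in `B`, `w` outside -/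
noncomputable def XX {M : Matrix (Fin d) (Fin d) ℝ} (hM : IsPM M) (B : Finset (Fin d)) :
    (Fin d → ℝ) ≃ₗ[ℝ] (Fin d → ℝ) :=
  (LinearEquiv.ofInjectiveEndo (NN M B) (hM.inj B)).symm

variable {M : Matrix (Fin d) (Fin d) ℝ} (hM : IsPM M)

include hM

theorem NN_XX (B : Finset (Fin d)) (q : Fin d → ℝ) : NN M B (XX hM B q) = q :=
  (LinearEquiv.ofInjectiveEndo (NN M B) (hM.inj B)).apply_symm_apply q

theorem XX_NN (B : Finset (Fin d)) (x : Fin d → ℝ) : XX hM B (NN M B x) = x :=
  (LinearEquiv.ofInjectiveEndo (NN M B) (hM.inj B)).symm_apply_apply x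

theorem XX_cmp (B C : Finset (Fin d)) (q : Fin d → ℝ) :
    (zz B (XX hM B q) = zz C (XX hM C q) ∧ ww B (XX hM B q) = ww C (XX hM C q)) ∨
      ∃ i, (i ∈ B ↔ i ∉ C) ∧ XX hM B q i * XX hM C q i < 0 :=
  hM.cmp (by rw [NN_XX, NN_XX])

/-- an edge: either the coordinate changes its sign, or the solutions agree and it is zero -/
theorem XX_edge {B : Finset (Fin d)} {i : Fin d} (hB : i ∉ B) (q : Fin d → ℝ) :
    XX hM B q i * XX hM (insert i B) q i < 0 ∨
      XX hM B q i = 0 ∧ XX hM B q = XX hM (insert i B) q := by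
  rcases XX_cmp hM B (insert i B) q with ⟨h1, h2⟩ | ⟨j, h1, h2⟩
  · right
    have hi : i ∈ insert i B := mem_insert_self i B
    have e1 : XX hM B q i = 0 := by
      have := congrFun h2 i
      rwa [ww_not hB, ww_mem hi] at this
    have e2 : XX hM (insert i B) q i = 0 := by
      have := congrFun h1 i
      rw [zz_not hB, zz_mem hi] at this
      exact this.symm
    refine ⟨e1, ?_⟩
    funext j
    by_cases hj : j = i
    · rw [hj, e1, e2]
    · by_cases hjB : j ∈ B
      · have := congrFun h1 j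
        rwa [zz_mem hjB, zz_mem (mem_insert_of_mem hjB)] at this
      · have := congrFun h2 j
        rwa [ww_not hjB, ww_not (by rw [mem_insert, not_or]; exact ⟨hj, hjB⟩)] at this
  · left
    have hj : j = i := by
      by_contra hji
      rw [mem_insert, or_iff_right hji] at h1
      tauto
    rw [hj] at h2
    exact h2

/-- a vector with sign `-` outside the facet and `+` in the facet -/
theorem XX_neg_single (j : Fin d) (B : Finset (Fin d)) :
    (j ∈ B → 0 < XX hM B (-Pi.single j 1) j) ∧ (j ∉ B → XX hM B (-Pi.single j 1) j < 0) := by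
  have key : ∀ C : Finset (Fin d), j ∉ C → XX hM C (-Pi.single j 1) j = -1 := by
    intro C hC
    have h1 : NN M C (-Pi.single j 1) = -Pi.single j 1 := by
      have hz : zz C (-Pi.single j (1 : ℝ)) = 0 := by
        funext k
        by_cases hk : k ∈ C
        · rw [zz_mem hk, Pi.neg_apply, Pi.single_eq_of_ne, neg_zero, Pi.zero_apply]
          rintro rfl
          exact hC hk
        · rw [zz_not hk, Pi.zero_apply]
      rw [NN_apply, hz, Matrix.mulVec_zero, sub_zero]
      change -Pi.single j 1 - zz C (-Pi.single j (1 : ℝ)) = _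
      rw [hz, sub_zero]
    have h2 := XX_NN hM C (-Pi.single j 1)
    rw [h1] at h2
    rw [h2, Pi.neg_apply, Pi.single_eq_same]
  constructor
  · intro hj
    have h1 := key (B.erase j) (notMem_erase j B)
    have h2 := XX_edge hM (notMem_erase j B) (-Pi.single j 1)
    rw [insert_erase hj, h1] at h2
    rcases h2 with h2 | ⟨h2, -⟩
    · linarith
    · norm_num at h2
  · intro hj
    rw [key B hj]
    norm_num

end PMC
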