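import Pool.Agent.PMC.Comp
import Pool.Agent.PMC.Gen

/-!
# PMC / Main: codes of P-matrices and their compositions
-/

namespace PMC

open Finset CTL

variable {S : Type*} {d : ℕ}

/-- `(w, z)` is the basic solution of `w = M z + q` at the set `B`: `w` vanishes in `B` and `z` vanishes
outside `B` -/
def Basic (M : Matrix (Fin d) (Fin d) ℝ) (q : Fin d → ℝ) (B : Finset (Fin d))
    (w z : Fin d → ℝ) : Prop :=
  w = M.mulVec z + q ∧ (∀ i, i ∈ B → w i = 0) ∧ ∀ i, i ∉ B → z i = 0

/-- nondegenerate right hand sides: in every basic solution the other coordinates are not zero -/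
def Nondegenerate (M : Matrix (Fin d) (Fin d) ℝ) (q : Fin d → ℝ) : Prop :=
  ∀ B w z, Basic M q B w z → (∀ i, i ∈ B → z i ≠ 0) ∧ ∀ i, i ∉ B → w i ≠ 0

/-- the labelling of a linear complementarity problem with the letters `a` and `b` -/
def IsLcp (M : Matrix (Fin d) (Fin d) ℝ) (q : Fin d → ℝ) (a b : Fin d → S) (p : Pat S d) : Prop :=
  ∀ B w z, Basic M q B w z → ∀ i,
    (i ∈ B → 0 < z i → p B i = a i) ∧ (i ∈ B → z i < 0 → p B i = b i) ∧
      (i ∉ B → 0 < w i → p B i = b i) ∧ (i ∉ B → w i < 0 → p B i = a i)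

/-- the class of the labellings of P-matrices, closed under composition -/
inductive PClass : Pat S d → Prop
  | lcp (M : Matrix (Fin d) (Fin d) ℝ) (q : Fin d → ℝ) (a b : Fin d → S) (p : Pat S d)
      (hM : IsPM M) (hq : Nondegenerate M q) (hp : IsLcp M q a b p) : PClass p
  | comp (A : Finset (Fin d)) (r : Pat S d) (s : Finset (Fin d) → Pat S d)
      (hr : PClass r) (hs : ∀ E, PClass (s E)) : PClass (comp A r s)

variable {M : Matrix (Fin d) (Fin d) ℝ} (hM : IsPM M)

theorem basic_XX (q : Fin d → ℝ) (B : Finset (Fin d)) :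
    Basic M q B (ww B (XX hM B q)) (zz B (XX hM B q)) := by
  refine ⟨?_, fun i hi => ww_mem hi _, fun i hi => zz_not hi _⟩
  have h1 := NN_XX hM B q
  rw [NN_apply, sub_eq_iff_eq_add] at h1
  rw [h1, add_comm]

theorem conn_const {L : Type*} (a b : Fin d → L) :
    Conn (fun _ i => a i : Pat L d) (fun _ i => b i) := by
  classical
  let x : Finset (Fin d) → Fin d → ℝ := fun B i => if i ∈ B then 1 else -1
  let x' : Finset (Fin d) → Fin d → ℝ := fun B i => -(((i : ℕ) : ℝ) + 1) * x B i
  have hx1 : ∀ {B : Finset (Fin d)} {i}, i ∈ B → x B i = 1 := fun h => if_pos h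
  have hx2 : ∀ {B : Finset (Fin d)} {i}, i ∉ B → x B i = -1 := fun h => if_neg h
  have hxn : ∀ B i, x B i ≠ 0 := by
    intro B i
    by_cases h : i ∈ B
    · rw [hx1 h]
      exact one_ne_zero
    · rw [hx2 h]
      norm_num
  have hpos : ∀ i : Fin d, (0 : ℝ) < ((i : ℕ) : ℝ) + 1 := fun i => by positivity
  have hev : Ev ∅ x x' := by
    refine ⟨fun B i _ => hxn B i, fun B i _ => ?_, fun B i _ hB => ?_, fun B i _ hB => ?_,
      fun B i t _ hB ht => ⟨?_, fun j hj => ?_⟩, fun B i k _ _ hik h => ?_⟩
    · exact mul_ne_zero (neg_ne_zero.2 (hpos i).ne') (hxn B i)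
    · rw [hx2 hB, hx1 (mem_insert_self i B)]
      norm_num
    · have h1 := hpos i
      change -(((i : ℕ) : ℝ) + 1) * x B i * (-(((i : ℕ) : ℝ) + 1) * x (insert i B) i) < 0
      rw [hx2 hB, hx1 (mem_insert_self i B)]
      nlinarith
    · change (1 - t) * x (insert i B) i + t * (-(((i : ℕ) : ℝ) + 1) * x (insert i B) i) = 0
      change (1 - t) * x B i + t * (-(((i : ℕ) : ℝ) + 1) * x B i) = 0 at ht
      rw [hx2 hB] at ht
      rw [hx1 (mem_insert_self i B)]
      linear_combination -ht
    · have h1 : x (insert i B) j = x B j := by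
        by_cases hjB : j ∈ B
        · rw [hx1 hjB, hx1 (mem_insert_of_mem hjB)]
        · rw [hx2 hjB, hx2 (by rw [mem_insert, not_or]; exact ⟨hj, hjB⟩)]
      change (1 - t) * x B j + t * (-(((j : ℕ) : ℝ) + 1) * x B j) =
        (1 - t) * x (insert i B) j + t * (-(((j : ℕ) : ℝ) + 1) * x (insert i B) j)
      rw [h1]
    · change x B i * (-(((k : ℕ) : ℝ) + 1) * x B k) = x B k * (-(((i : ℕ) : ℝ) + 1) * x B i) at h
      have h1 : (x B i * x B k) * (((i : ℕ) : ℝ) - ((k : ℕ) : ℝ)) = 0 := by
        linear_combination h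
      rcases mul_eq_zero.1 h1 with h2 | h2
      · exact absurd h2 (mul_ne_zero (hxn B i) (hxn B k))
      · rw [sub_eq_zero, Nat.cast_inj] at h2
        exact hik (Fin.ext h2)
  have h1 := hev.conn
  have e1 : pt ∅ x = fun _ _ => true := by
    funext B i
    rw [pt_not (notMem_empty i)]
    by_cases h : i ∈ B
    · rw [hx1 h]
      simp [h]
    · rw [hx2 h]
      simp only [h, false_iff, not_lt]
      norm_num
  have e2 : pt ∅ x' = fun _ _ => false := by
    funext B i
    rw [Bool.eq_false_iff, Ne, pt_not (notMem_empty i)]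
    have h0 := hpos i
    change ¬ (i ∈ B ↔ 0 < -(((i : ℕ) : ℝ) + 1) * x B i)
    by_cases h : i ∈ B
    · rw [hx1 h]
      simp only [h, true_iff, not_lt]
      linarith
    · rw [hx2 h]
      have : 0 < -(((i : ℕ) : ℝ) + 1) * (-1) := by linarith
      simp only [h, this, iff_true, not_false_eq_true]
  rw [e1, e2] at h1
  exact h1.map fun i t => if t then a i else b i

theorem TT.any {L : Type*} {a : Fin d → L} (b : Fin d → L) {p : Pat L d} (h : TT a p) :
    TT b p := ⟨h.1, Relation.ReflTransGen.trans h.2 (conn_const a b)⟩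

theorem TT.of_lcp {q : Fin d → ℝ} {a b : Fin d → S} {p : Pat S d} (hM : IsPM M)
    (hq : Nondegenerate M q) (hp : IsLcp M q a b p) (c : Fin d → S) : TT c p := by
  have hnz : ∀ B i, XX hM B q i ≠ 0 := by
    intro B i
    have h1 := hq B _ _ (basic_XX hM q B)
    by_cases hi : i ∈ B
    · have := h1.1 i hi
      rwa [zz_mem hi] at this
    · have := h1.2 i hi
      rwa [ww_not hi] at this
  let f : Fin d → Bool → S := fun i t => if t then a i else b i
  have hpe : p = fun B i => f i (pt ∅ (fun B => XX hM B q) B i) := by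
    funext B i
    obtain ⟨h1, h2, h3, h4⟩ := hp B _ _ (basic_XX hM q B) i
    have h5 := pt_not (x := fun B => XX hM B q) (B := B) (notMem_empty i)
    beta_reduce at h5
    rcases lt_or_gt_of_ne (hnz B i) with h0 | h0
    · by_cases hi : i ∈ B
      · rw [zz_mem hi] at h2
        have h6 : ¬ pt ∅ (fun B => XX hM B q) B i = true := by
          rw [h5]
          simp only [hi, true_iff, not_lt]
          exact h0.le
        rw [h2 hi h0, Bool.eq_false_iff.2 h6]
        rfl
      · rw [ww_not hi] at h4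
        have h6 : pt ∅ (fun B => XX hM B q) B i = true := by
          rw [h5]
          simp only [hi, false_iff, not_lt]
          exact h0.le
        rw [h4 hi h0, h6]
        rfl
    · by_cases hi : i ∈ B
      · rw [zz_mem hi] at h1
        have h6 : pt ∅ (fun B => XX hM B q) B i = true := by
          rw [h5]
          simp only [hi, true_iff]
          exact h0
        rw [h1 hi h0, h6]
        rfl
      · rw [ww_not hi] at h3
        have h6 : ¬ pt ∅ (fun B => XX hM B q) B i = true := by
          rw [h5]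
          simp only [hi, false_iff, not_not]
          exact h0
        rw [h3 hi h0, Bool.eq_false_iff.2 h6]
        rfl
  have h1 : TT a p := by
    rw [hpe]
    exact ⟨(kel_lcp hM q hnz).map f, (conn_lcp hM q hnz).map f⟩
  exact h1.any c

theorem PClass.tt {p : Pat S d} (h : PClass p) : ∀ c : Fin d → S, TT c p := by
  induction h with
  | lcp M q a b p hM hq hp => exact fun c => TT.of_lcp hM hq hp c
  | comp A r s _ _ ih1 ih2 => exact fun c => (ih1 c).comp fun E => ih2 E c

variable {co : S → S}

theorem main_tiling (hco : ∀ s, co (co s) = s) (hne : ∀ s, co s ≠ s) {p : Pat S d}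
    (hp : PClass p) : IsTiling co (cod co p) := by
  rcases isEmpty_or_nonempty (Fin d → S) with h | ⟨⟨c⟩⟩
  · exact (h.false fun i => p ∅ i).elim
  · exact isTiling_cod hco hne (hp.tt c).1

theorem main_equiv (hco : ∀ s, co (co s) = s) (hne : ∀ s, co s ≠ s) {p p' : Pat S d}
    (hp : PClass p) (hp' : PClass p') : StronglyEquivalent co (cod co p) (cod co p') := by
  have h1 := hp.tt (fun i => p ∅ i)
  have h2 := hp'.tt (fun i => p ∅ i)
  exact equiv_of_conn hco hne h1.1 (Relation.ReflTransGen.trans h1.2 (h2.2.symm h2.1))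

/-- the simple codes belong to the class -/
theorem simple_mem (c : Fin d → S) : PClass (fun _ i => c i : Pat S d) := by
  refine PClass.lcp 1 (fun _ => -1) c c _ ?_ ?_ (fun B w z _ i => ⟨fun _ _ => rfl,
    fun _ _ => rfl, fun _ _ => rfl, fun _ _ => rfl⟩)
  · intro x hx
    obtain ⟨i, hi⟩ := Function.ne_iff.1 hx
    refine ⟨i, ?_⟩
    rw [Matrix.one_mulVec]
    exact mul_self_pos.2 hi
  · rintro B w z ⟨h1, h2, h3⟩
    rw [Matrix.one_mulVec] at h1
    have h4 : ∀ i, w i = z i + -1 := fun i => congrFun h1 i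
    refine ⟨fun i hi h => ?_, fun i hi h => ?_⟩
    · have := h4 i
      rw [h2 i hi, h] at this
      norm_num at this
    · have := h4 i
      rw [h3 i hi, h] at this
      norm_num at this

end PMC
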