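import Pool.Agent.PMC.Lab

/-!
# PMC / Stage: one linear path

Two sign functions which are joined by a generic linear path have patterns which are joined by flips.
-/

namespace PMC

open Finset

variable {d : ℕ}

open Classical in
/-- the pattern of a sign function; the coordinates in `D` are done -/
noncomputable def pt (D : Finset (Fin d)) (x : Finset (Fin d) → Fin d → ℝ) : Pat Bool d :=
  fun B i => if i ∈ D then true else decide (i ∈ B ↔ 0 < x B i)

theorem pt_mem {D : Finset (Fin d)} {x : Finset (Fin d) → Fin d → ℝ} {B : Finset (Fin d)}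
    {i : Fin d} (h : i ∈ D) : pt D x B i = true := by
  unfold pt
  rw [if_pos h]

theorem pt_not {D : Finset (Fin d)} {x : Finset (Fin d) → Fin d → ℝ} {B : Finset (Fin d)}
    {i : Fin d} (h : i ∉ D) : pt D x B i = true ↔ (i ∈ B ↔ 0 < x B i) := by
  unfold pt
  rw [if_neg h, decide_eq_true_iff]

theorem pt_congr {D : Finset (Fin d)} {x y : Finset (Fin d) → Fin d → ℝ} {B C : Finset (Fin d)}
    {i : Fin d} (h : i ∉ D → ((i ∈ B ↔ 0 < x B i) ↔ (i ∈ C ↔ 0 < y C i))) :
    pt D x B i = pt D y C i := by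
  by_cases hi : i ∈ D
  · rw [pt_mem hi, pt_mem hi]
  · rw [Bool.eq_iff_iff, pt_not hi, pt_not hi]
    exact h hi

/-- generic linear paths of sign functions -/
structure Ev (D : Finset (Fin d)) (x x' : Finset (Fin d) → Fin d → ℝ) : Prop where
  nz : ∀ B i, i ∉ D → x B i ≠ 0
  nz' : ∀ B i, i ∉ D → x' B i ≠ 0
  opp : ∀ B i, i ∉ D → i ∉ B → x B i * x (insert i B) i < 0
  opp' : ∀ B i, i ∉ D → i ∉ B → x' B i * x' (insert i B) i < 0
  tw : ∀ B i (t : ℝ), i ∉ D → i ∉ B → (1 - t) * x B i + t * x' B i = 0 →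
    (1 - t) * x (insert i B) i + t * x' (insert i B) i = 0 ∧
      ∀ j, j ≠ i → (1 - t) * x B j + t * x' B j =
        (1 - t) * x (insert i B) j + t * x' (insert i B) j
  gen : ∀ B i k, i ∉ D → k ∉ D → i ≠ k → x B i * x' B k ≠ x B k * x' B i

/-- the time of the change of sign -/
noncomputable def tm (u v : ℝ) : ℝ := u / (u - v)

theorem sub_ne_of_mul_neg {u v : ℝ} (h : u * v < 0) : u - v ≠ 0 := by
  intro h'
  rw [sub_eq_zero] at h'
  subst h'
  exact absurd (mul_self_nonneg u) (not_le.2 h)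

theorem lin_eq {u v : ℝ} (h : u * v < 0) (t : ℝ) : (1 - t) * u + t * v = (v - u) * (t - tm u v) := by
  have := sub_ne_of_mul_neg h
  unfold tm
  field_simp
  ring

theorem tm_root {u v : ℝ} (h : u * v < 0) : (1 - tm u v) * u + tm u v * v = 0 := by
  rw [lin_eq h, sub_self, mul_zero]

theorem tm_unique {u v t : ℝ} (h : u * v < 0) (ht : (1 - t) * u + t * v = 0) : t = tm u v := by
  rw [lin_eq h, mul_eq_zero, sub_eq_zero, sub_eq_zero] at ht
  rcases ht with h' | h'
  · exact absurd (sub_eq_zero.2 h'.symm) (sub_ne_of_mul_neg h)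
  · exact h'

theorem tm_pos {u v : ℝ} (h : u * v < 0) : 0 < tm u v := by
  unfold tm
  rcases mul_neg_iff.1 h with ⟨h1, h2⟩ | ⟨h1, h2⟩
  · exact div_pos h1 (by linarith)
  · exact div_pos_of_neg_of_neg h1 (by linarith)

theorem tm_lt {u v : ℝ} (h : u * v < 0) : tm u v < 1 := by
  unfold tm
  rcases mul_neg_iff.1 h with ⟨h1, h2⟩ | ⟨h1, h2⟩
  · rw [div_lt_one (by linarith)]
    linarith
  · rw [div_lt_one_of_neg (by linarith)]
    linarith

theorem sgn_after {u v t : ℝ} (h : u * v < 0) (ht : tm u v < t) :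
    0 < (1 - t) * u + t * v ↔ 0 < v := by
  rw [lin_eq h, mul_pos_iff_of_pos_right (sub_pos.2 ht)]
  rcases mul_neg_iff.1 h with ⟨h1, h2⟩ | ⟨h1, h2⟩
  · constructor
    · intro h3
      linarith
    · intro h3
      linarith
  · constructor
    · intro
      exact h2
    · intro
      linarith

theorem sgn_before {u v t : ℝ} (h : u * v < 0) (ht : t < tm u v) :
    0 < (1 - t) * u + t * v ↔ 0 < u := by
  rw [lin_eq h]
  have h0 : t - tm u v < 0 := sub_neg.2 ht
  rcases mul_neg_iff.1 h with ⟨h1, h2⟩ | ⟨h1, h2⟩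
  · constructor
    · intro
      exact h1
    · intro
      exact mul_pos_of_neg_of_neg (by linarith) h0
  · constructor
    · intro h3
      have := mul_neg_of_pos_of_neg (show 0 < v - u by linarith) h0
      linarith
    · intro h3
      linarith

theorem sgn_same {u v t : ℝ} (h : 0 < u * v) (h0 : 0 < t) (h1 : t < 1) :
    0 < (1 - t) * u + t * v ↔ 0 < u := by
  have h2 : 0 < 1 - t := by linarith
  rcases mul_pos_iff.1 h with ⟨h3, h4⟩ | ⟨h3, h4⟩
  · have := mul_pos h2 h3
    have := mul_pos h0 h4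
    constructor
    · intro
      exact h3
    · intro
      linarith
  · have := mul_neg_of_pos_of_neg h2 h3
    have := mul_neg_of_pos_of_neg h0 h4
    constructor
    · intro
      linarith
    · intro
      linarith

theorem sgn_eq {u v : ℝ} (h : 0 < u * v) : 0 < u ↔ 0 < v := by
  rcases mul_pos_iff.1 h with ⟨h3, h4⟩ | ⟨h3, h4⟩
  · exact ⟨fun _ => h4, fun _ => h3⟩
  · exact ⟨fun h => absurd h (not_lt.2 h3.le), fun h => absurd h (not_lt.2 h4.le)⟩

variable {D : Finset (Fin d)} {x x' : Finset (Fin d) → Fin d → ℝ}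

theorem Ev.crit_insert (h : Ev D x x') {B : Finset (Fin d)} {i : Fin d} (hD : i ∉ D)
    (hB : i ∉ B) : x B i * x' B i < 0 ↔ x (insert i B) i * x' (insert i B) i < 0 := by
  have h1 := h.opp B i hD hB
  have h2 := h.opp' B i hD hB
  have h3 : 0 < (x B i * x' B i) * (x (insert i B) i * x' (insert i B) i) := by
    have := mul_pos_of_neg_of_neg h1 h2
    nlinarith
  constructor
  · intro h4
    exact (neg_iff_neg_of_mul_pos h3).1 h4
  · intro h4
    exact (neg_iff_neg_of_mul_pos h3).2 h4

theorem Ev.tm_insert (h : Ev D x x') {B : Finset (Fin d)} {i : Fin d} (hD : i ∉ D)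
    (hB : i ∉ B) (hc : x B i * x' B i < 0) :
    tm (x B i) (x' B i) = tm (x (insert i B) i) (x' (insert i B) i) := by
  have h1 := (h.tw B i _ hD hB (tm_root hc)).1
  exact tm_unique ((h.crit_insert hD hB).1 hc) h1

/-- the lower end of an edge -/
theorem Ev.crit_erase (h : Ev D x x') {C : Finset (Fin d)} {j : Fin d} (hD : j ∉ D) :
    x (C.erase j) j * x' (C.erase j) j < 0 ↔ x C j * x' C j < 0 := by
  by_cases hj : j ∈ C
  · rw [h.crit_insert hD (notMem_erase j C), insert_erase hj]
  · rw [erase_eq_of_notMem hj]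

theorem Ev.tm_erase (h : Ev D x x') {C : Finset (Fin d)} {j : Fin d} (hD : j ∉ D)
    (hc : x C j * x' C j < 0) :
    tm (x (C.erase j) j) (x' (C.erase j) j) = tm (x C j) (x' C j) := by
  by_cases hj : j ∈ C
  · rw [h.tm_insert hD (notMem_erase j C) ((h.crit_erase hD).2 hc), insert_erase hj]
  · rw [erase_eq_of_notMem hj]

open Classical in
/-- the edges which change -/
noncomputable def crE (D : Finset (Fin d)) (x x' : Finset (Fin d) → Fin d → ℝ) :
    Finset (Finset (Fin d) × Fin d) :=
  univ.filter fun e => e.2 ∉ e.1 ∧ e.2 ∉ D ∧ x e.1 e.2 * x' e.1 e.2 < 0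

theorem mem_crE {e : Finset (Fin d) × Fin d} :
    e ∈ crE D x x' ↔ e.2 ∉ e.1 ∧ e.2 ∉ D ∧ x e.1 e.2 * x' e.1 e.2 < 0 := by
  unfold crE
  rw [mem_filter, and_iff_right (mem_univ e)]

theorem mem_crE' (h : Ev D x x') {C : Finset (Fin d)} {j : Fin d} (hD : j ∉ D) :
    (C.erase j, j) ∈ crE D x x' ↔ x C j * x' C j < 0 := by
  rw [mem_crE, and_iff_right (notMem_erase j C), and_iff_right hD]
  exact h.crit_erase hD

open Classical in
/-- the pattern in which the edges in `T` are changed -/
noncomputable def pT (D : Finset (Fin d)) (x x' : Finset (Fin d) → Fin d → ℝ)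
    (T : Finset (Finset (Fin d) × Fin d)) : Pat Bool d :=
  fun B i => if (B.erase i, i) ∈ T then pt D x' B i else pt D x B i

/-- the time of an edge -/
noncomputable def te (x x' : Finset (Fin d) → Fin d → ℝ) (e : Finset (Fin d) × Fin d) : ℝ :=
  tm (x e.1 e.2) (x' e.1 e.2)

/-- the pattern at the time of an edge -/
theorem Ev.pT_at (h : Ev D x x') {T : Finset (Finset (Fin d) × Fin d)}
    (hT1 : T ⊆ crE D x x') {t : ℝ} (h0 : 0 < t) (h1 : t < 1)
    (hT2 : ∀ e ∈ T, te x x' e ≤ t) (hT3 : ∀ e ∈ crE D x x', e ∉ T → t ≤ te x x' e)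
    {C : Finset (Fin d)} {j : Fin d} (hD : j ∉ D) (hy : (1 - t) * x C j + t * x' C j ≠ 0) :
    pT D x x' T C j = true ↔ (j ∈ C ↔ 0 < (1 - t) * x C j + t * x' C j) := by
  unfold pT
  by_cases hT : (C.erase j, j) ∈ T
  · rw [if_pos hT, pt_not hD]
    have hc : x C j * x' C j < 0 := (mem_crE' h hD).1 (hT1 hT)
    have h2 : tm (x C j) (x' C j) ≤ t := by
      rw [← h.tm_erase hD hc]
      exact hT2 _ hT
    have h3 : tm (x C j) (x' C j) < t := by
      refine lt_of_le_of_ne h2 ?_
      rintro rfl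
      exact hy (tm_root hc)
    rw [sgn_after hc h3]
  · rw [if_neg hT, pt_not hD]
    by_cases hc : x C j * x' C j < 0
    · have h2 : t ≤ tm (x C j) (x' C j) := by
        rw [← h.tm_erase hD hc]
        exact hT3 _ ((mem_crE' h hD).2 hc) hT
      have h3 : t < tm (x C j) (x' C j) := by
        refine lt_of_le_of_ne h2 ?_
        rintro rfl
        exact hy (tm_root hc)
      rw [sgn_before hc h3]
    · have h2 : 0 < x C j * x' C j :=
        lt_of_le_of_ne (not_lt.1 hc) (mul_ne_zero (h.nz C j hD) (h.nz' C j hD)).symm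
      rw [sgn_same h2 h0 h1]

theorem Ev.flip_pT (h : Ev D x x') {T : Finset (Finset (Fin d) × Fin d)}
    (hT1 : T ⊆ crE D x x') {e : Finset (Fin d) × Fin d} (he : e ∈ crE D x x')
    (hT2 : ∀ f ∈ T, te x x' f ≤ te x x' e)
    (hT3 : ∀ f ∈ crE D x x', f ∉ T → te x x' e ≤ te x x' f) :
    Flip (pT D x x' T) (pT D x x' (insert e T)) := by
  obtain ⟨B, i⟩ := e
  obtain ⟨hB, hD, hc⟩ := mem_crE.1 he
  dsimp only at hB hD hc
  have hroot := tm_root hc
  obtain ⟨hroot', htw⟩ := h.tw B i _ hD hB hroot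
  have hc' := (h.crit_insert hD hB).1 hc
  have hnz : ∀ C, (C = B ∨ C = insert i B) → ∀ j, j ∉ D → j ≠ i →
      (1 - tm (x B i) (x' B i)) * x C j + tm (x B i) (x' B i) * x' C j ≠ 0 := by
    intro C hC j hj hji hy
    set t := tm (x B i) (x' B i) with ht
    have hr : (1 - t) * x C i + t * x' C i = 0 := by
      rcases hC with rfl | rfl
      · exact hroot
      · exact hroot'
    have h2 := h.gen C i j hD hj (Ne.symm hji)
    apply h2
    have ht0 : 0 < t := tm_pos hc
    have e1 : t * (x C i * x' C j - x C j * x' C i) = 0 := by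
      linear_combination x C i * hy - x C j * hr
    rcases mul_eq_zero.1 e1 with h3 | h3
    · exact absurd h3 ht0.ne'
    · linarith
  have hat : ∀ C, (C = B ∨ C = insert i B) → ∀ j, j ∉ D → j ≠ i →
      (pT D x x' T C j = true ↔
        (j ∈ C ↔ 0 < (1 - tm (x B i) (x' B i)) * x C j + tm (x B i) (x' B i) * x' C j)) := by
    intro C hC j hj hji
    exact h.pT_at hT1 (tm_pos hc) (tm_lt hc) hT2 hT3 hj (hnz C hC j hj hji)
  refine ⟨i, B, pt D x' B i, hB, ?_, ?_⟩
  · intro j hji
    by_cases hj : j ∈ D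
    · have hh : ∀ C, pT D x x' T C j = true := by
        intro C
        unfold pT
        rw [pt_mem hj, pt_mem hj, ite_self]
      rw [hh, hh]
    · rw [Bool.eq_iff_iff, hat B (Or.inl rfl) j hj hji, hat _ (Or.inr rfl) j hj hji,
        htw j hji, mem_insert, or_iff_right hji]
  · have hv : ∀ C, (C = B ∨ C = insert i B) → pt D x' C i = pt D x' B i := by
      rintro C (rfl | rfl)
      · rfl
      · refine pt_congr fun _ => ?_
        have h2 := h.opp' B i hD hB
        have h3 : 0 < x' (insert i B) i ↔ ¬ 0 < x' B i := by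
          rcases mul_neg_iff.1 h2 with ⟨h4, h5⟩ | ⟨h4, h5⟩
          · exact ⟨fun h => absurd h (not_lt.2 h5.le), fun h => absurd h4 h⟩
          · exact ⟨fun _ => not_lt.2 h4.le, fun _ => h5⟩
        rw [h3]
        simp [hB]
    have hk : ∀ C j, ((C.erase j, j) = (B, i)) ↔ (j = i ∧ (C = B ∨ C = insert i B)) := by
      intro C j
      rw [Prod.mk.injEq]
      constructor
      · rintro ⟨h2, rfl⟩
        refine ⟨rfl, ?_⟩
        by_cases hj : j ∈ C
        · right
          rw [← h2, insert_erase hj]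
        · left
          rw [← h2, erase_eq_of_notMem hj]
      · rintro ⟨rfl, rfl | rfl⟩
        · exact ⟨erase_eq_of_notMem hB, rfl⟩
        · exact ⟨erase_insert hB, rfl⟩
    funext C j
    unfold upd pT
    by_cases h2 : j = i ∧ (C = B ∨ C = insert i B)
    · rw [if_pos h2, if_pos (mem_insert.2 (Or.inl ((hk C j).2 h2)))]
      obtain ⟨rfl, h3⟩ := h2
      exact hv C h3
    · rw [if_neg h2]
      have h3 : (C.erase j, j) ∈ insert (B, i) T ↔ (C.erase j, j) ∈ T := by
        rw [mem_insert, or_iff_right]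
        exact fun h4 => h2 ((hk C j).1 h4)
      by_cases h4 : (C.erase j, j) ∈ T
      · rw [if_pos h4, if_pos (h3.2 h4)]
      · rw [if_neg h4, if_neg fun h5 => h4 (h3.1 h5)]

theorem Ev.conn_aux (h : Ev D x x') : ∀ (n : ℕ) (T : Finset (Finset (Fin d) × Fin d)),
    (crE D x x' \ T).card = n → T ⊆ crE D x x' →
    (∀ e ∈ T, ∀ f ∈ crE D x x', f ∉ T → te x x' e ≤ te x x' f) →
    Conn (pT D x x' T) (pT D x x' (crE D x x')) := by
  intro n
  induction n with
  | zero =>
    intro T hn hT _
    have : T = crE D x x' := by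
      refine Subset.antisymm hT ?_
      rw [← sdiff_eq_empty_iff_subset]
      exact card_eq_zero.1 hn
    rw [this]
    exact Relation.ReflTransGen.refl
  | succ n ih =>
    intro T hn hT hT2
    have hne : (crE D x x' \ T).Nonempty := by
      rw [← card_pos, hn]
      exact Nat.succ_pos n
    obtain ⟨e, he, hmin⟩ := exists_min_image _ (te x x') hne
    rw [mem_sdiff] at he
    have hT3 : ∀ f ∈ crE D x x', f ∉ T → te x x' e ≤ te x x' f :=
      fun f hf hfT => hmin f (mem_sdiff.2 ⟨hf, hfT⟩)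
    have hflip := h.flip_pT hT he.1 (fun f hf => hT2 f hf e he.1 he.2) hT3
    refine Relation.ReflTransGen.head hflip (ih (insert e T) ?_ ?_ ?_)
    · have h1 : crE D x x' \ insert e T = (crE D x x' \ T).erase e := by
        ext f
        simp only [mem_sdiff, mem_insert, mem_erase, not_or]
        tauto
      rw [h1, card_erase_of_mem (mem_sdiff.2 he), hn]
      rfl
    · intro f hf
      rcases mem_insert.1 hf with rfl | hf
      · exact he.1
      · exact hT hf
    · intro f hf g hg hgT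
      rw [mem_insert, not_or] at hgT
      rcases mem_insert.1 hf with rfl | hf
      · exact hT3 g hg hgT.2
      · exact hT2 f hf g hg hgT.2

/-- the stage -/
theorem Ev.conn (h : Ev D x x') : Conn (pt D x) (pt D x') := by
  have h1 := h.conn_aux _ ∅ rfl (empty_subset _) (fun e he => absurd he (notMem_empty e))
  have h2 : pT D x x' ∅ = pt D x := by
    funext C j
    unfold pT
    rw [if_neg (notMem_empty _)]
  have h3 : pT D x x' (crE D x x') = pt D x' := by
    funext C j
    unfold pT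
    by_cases hC : (C.erase j, j) ∈ crE D x x'
    · rw [if_pos hC]
    · rw [if_neg hC]
      refine pt_congr fun hD => ?_
      have h4 : ¬ x C j * x' C j < 0 := fun h5 => hC ((mem_crE' h hD).2 h5)
      have h5 : 0 < x C j * x' C j :=
        lt_of_le_of_ne (not_lt.1 h4) (mul_ne_zero (h.nz C j hD) (h.nz' C j hD)).symm
      rw [sgn_eq h5]
  rw [h2, h3] at h1
  exact h1

end PMC
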